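import Pool.Agent.H81.EX2.Twr

/-!
# The towers of `2`-power degree, in the form in which they are used

(the condition `GoodRam` of `PositiveRankTowers`, `InertPrimeTwists`, `GenusTwoPositiveRank`, ...)
-/

set_option autoImplicit false

namespace Pool.Agent.H81.EX2

open NumberField IsDedekindDomain

/-- **The existence of the towers.**  For `M = ℚ(√-3)`, every odd prime number `q ≡ 2 mod 3` and all `n ≥ 1`, `B` there is
a cyclic extension `K/M` of degree `2 ^ n` such that `q` is inert in `K`, only primes modulo which `2` is not a cube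
ramify, and a prime of `M` of norm `> B` ramifies totally. -/
theorem exists_good (M : Type) [Field M] [NumberField M] [IsCyclotomicExtension {3} ℚ M] {q : ℕ}
    (hq : q.Prime) (hq2 : q ≠ 2) (hq3 : 3 ∣ q + 1) (n B : ℕ) (hn0 : n ≠ 0) :
    ∃ (K : Type) (_ : Field K) (_ : NumberField K) (_ : Algebra M K) (_ : IsGalois M K),
      IsCyclic Gal(K/M) ∧ Module.finrank M K = 2 ^ n ∧
      (∀ (w : HeightOneSpectrum (𝓞 K)) (σ : Gal(K/M)), (∀ x : 𝓞 K, σ • x - x ∈ w.asIdeal) → σ ≠ 1 →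
        ∀ α : 𝓞 M, α ^ 3 - 2 ∉ w.asIdeal.under (𝓞 M)) ∧
      (Ideal.span {((q : ℕ) : 𝓞 K)}).IsPrime ∧ (∃ ω : K, ω ^ 2 + ω + 1 = 0) ∧
      ∃ w : HeightOneSpectrum (𝓞 K), B < Ideal.absNorm (w.asIdeal.under (𝓞 M)) ∧
        ∀ (σ : Gal(K/M)) (x : 𝓞 K), σ • x - x ∈ w.asIdeal := by
  obtain ⟨K, _, _, _, _, v, h1, h2, h3, h4, h5, h6, h7⟩ := exists_tower M hq hq2 hq3 hn0 B
  refine ⟨K, inferInstance, inferInstance, inferInstance, inferInstance, h1, h2, ?_, h7, ?_, ?_⟩
  · intro w σ hσ hne α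
    by_cases hw : w.asIdeal.under (𝓞 M) = v.asIdeal
    · rw [hw]
      exact h4 α
    · exact absurd (Pool.Agent.Y696.unr_g w (h5 w hw) hσ) hne
  · obtain ⟨ω, hω⟩ := IsCyclotomicExtension.exists_isPrimitiveRoot ℚ M
      (Set.mem_singleton 3) (by norm_num)
    have h0 : ω ^ 2 + ω + 1 = 0 := by
      have h2 : (ω - 1) * (ω ^ 2 + ω + 1) = 0 := by
        have := hω.pow_eq_one
        linear_combination this
      exact (mul_eq_zero.1 h2).resolve_left (sub_ne_zero.2 (hω.ne_one (by norm_num)))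
    refine ⟨algebraMap M K ω, ?_⟩
    rw [← map_pow, ← map_add, ← map_one (algebraMap M K), ← map_add, h0, map_zero]
  · obtain ⟨w, hw⟩ := Pool.Agent.H62.EX.exists_above (K := K) v
    have hw' : w.asIdeal.under (𝓞 M) = v.asIdeal := congrArg HeightOneSpectrum.asIdeal hw
    exact ⟨w, by rw [hw']; exact h3, h6 w hw'⟩

end Pool.Agent.H81.EX2
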