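import Pool.Agent.H62.EX.Exi
import Pool.Agent.H40.EX.D

/-!
# The existence theorem with conductor, for every prime number `ℓ`

A copy of `Pool.Agent.H62.EX.exists_field'` (helper62) with `3` replaced by a prime number `ℓ` and
`ℚ(√-3)` by a totally complex field of class number one.
-/

set_option autoImplicit false
set_option linter.unusedSectionVars false
set_option linter.deprecated false

namespace Pool.Agent.H81.EX2

open NumberField IsDedekindDomain Pool.Agent.Q92.AR Pool.Agent.Q20.EX Pool.Agent.Q125.AR Pool.Agent.H62.Cft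
open Pool.Agent.Y696 (Art)
open Pool.Agent.H62.EX

/-- The existence theorem with conductor, `c` squarefree and prime to `ℓ`, over a totally complex field of
class number one: every character `χ` of order `ℓ ^ n` of `(𝓞 F / c)ˣ` that is trivial on units belongs to a
cyclic extension `K/F` of degree `ℓ ^ n`, unramified outside `c` (helper62's proof, with `3` replaced
by `ℓ`). -/
theorem exists_field {ℓ : ℕ} (hℓ : ℓ.Prime) (F : Type) [Field F] [NumberField F] [IsEmpty (F →+* ℝ)]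
    [IsPrincipalIdealRing (𝓞 F)] {c : 𝓞 F} (hc0 : c ≠ 0)
    (hcℓ : ∀ v : HeightOneSpectrum (𝓞 F), c ∈ v.asIdeal → (ℓ : 𝓞 F) ∉ v.asIdeal)
    (hcd : ∀ x : 𝓞 F, (∀ v : HeightOneSpectrum (𝓞 F), c ∈ v.asIdeal → x ∈ v.asIdeal) → c ∣ x)
    {n : ℕ} (χ : (𝓞 F ⧸ Ideal.span {c})ˣ →* ℂˣ)
    (hχ : ∀ (e : (𝓞 F)ˣ) (u : (𝓞 F ⧸ Ideal.span {c})ˣ),
      (u : 𝓞 F ⧸ Ideal.span {c}) = Ideal.Quotient.mk _ (e : 𝓞 F) → χ u = 1)
    (hχn : ∀ x, χ x ^ ℓ ^ n = 1) (hχo : ∃ x, orderOf (χ x) = ℓ ^ n) :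
    ∃ (K : Type) (_ : Field K) (_ : NumberField K) (_ : Algebra F K) (_ : IsGalois F K)
      (ψ : Gal(K/F) →* ℂˣ) (art : (𝓞 F ⧸ Ideal.span {c})ˣ →* Gal(K/F)),
      IsCyclic Gal(K/F) ∧ Module.finrank F K = ℓ ^ n ∧ Function.Injective ψ ∧
      Art c art ∧ ∀ x, ψ (art x) = χ x := by
  classical
  -- the value at a prime
  have hval : ∀ v : HeightOneSpectrum (𝓞 F), ∃ t : ℂˣ, t ^ ℓ ^ n = 1 ∧
      ∀ p : 𝓞 F, Prime p → p ∈ v.asIdeal → ∀ u : (𝓞 F ⧸ Ideal.span {c})ˣ,
        (u : 𝓞 F ⧸ Ideal.span {c}) = Ideal.Quotient.mk _ p → χ u = t := by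
    intro v
    by_cases hcv : c ∈ v.asIdeal
    · refine ⟨1, one_pow _, fun p _ hpv u hu => ?_⟩
      exact absurd hpv (not_mem_of_unit (a := p) (hu ▸ u.isUnit) hcv)
    · obtain ⟨p0, hp0, hv0⟩ := exists_gen v
      obtain ⟨u0, hu0⟩ := isUnit_of_prime hv0 hcv
      refine ⟨χ u0, hχn u0, fun p hp hpv u hu => ?_⟩
      rw [hv0, Ideal.mem_span_singleton] at hpv
      obtain ⟨e, he⟩ := hp0.irreducible.associated_of_dvd hp.irreducible hpv
      have h1 : u = u0 * (Units.map (Ideal.Quotient.mk (Ideal.span {c}) : 𝓞 F →* _) e) := by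
        apply Units.ext
        rw [hu, Units.val_mul, hu0, ← he, map_mul]
        rfl
      rw [h1, map_mul, hχ e (Units.map (Ideal.Quotient.mk (Ideal.span {c}) : 𝓞 F →* _) e) rfl, mul_one]
  choose t ht1 ht2 using hval
  let X : Dv F →+ Additive ℂˣ := Finsupp.liftAddHom fun v =>
    (zmultiplesHom (Additive ℂˣ)) (Additive.ofMul (t v))
  have hX1 : ∀ v, X (Finsupp.single v 1) = Additive.ofMul (t v) := by
    intro v
    rw [Finsupp.liftAddHom_apply_single]
    exact one_smul _ _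
  have hXel : ∀ (a : 𝓞 F) (ha : a ≠ 0) (u : (𝓞 F ⧸ Ideal.span {c})ˣ),
      (u : 𝓞 F ⧸ Ideal.span {c}) = Ideal.Quotient.mk _ a →
        X (prin (el ha)) = Additive.ofMul (χ u) :=
    dv_el X χ hχ fun v p hp hpv u hu => by rw [hX1, ht2 v p hp hpv u hu]
  -- elements near `1`
  have hX2 : ∀ x : Fˣ, (∀ v : HeightOneSpectrum (𝓞 F), c ∈ v.asIdeal → v.valuation F (x : F) = 1) →
      ℓ ^ n • X (prin x) = 0 ∧
      ((∀ v : HeightOneSpectrum (𝓞 F), c ∈ v.asIdeal → v.valuation F ((x : F) - 1) < 1) →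
        X (prin x) = 0) := by
    intro x hx
    obtain ⟨a, b, ha, hb, hxab, hab⟩ := exists_frac x
    obtain ⟨ua, hua⟩ := isUnit_mk hc0 fun v hv => (hab v (hx v hv)).1
    obtain ⟨ub, hub⟩ := isUnit_mk hc0 fun v hv => (hab v (hx v hv)).2
    have h1 : X (prin x) = Additive.ofMul (χ ua) - Additive.ofMul (χ ub) := by
      rw [hxab, prin_div, map_sub, hXel a ha ua hua, hXel b hb ub hub]
    constructor
    · rw [h1, nsmul_sub, ← ofMul_pow, ← ofMul_pow, hχn, hχn, sub_self]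
    · intro h2
      have h3 : c ∣ a - b := by
        refine hcd _ fun v hv => ?_
        have h4 := h2 v hv
        rw [hxab, Units.val_div_eq_div_val, el_coe, el_coe] at h4
        have hb0 : algebraMap (𝓞 F) F b ≠ 0 := (el hb).ne_zero
        have h5 : algebraMap (𝓞 F) F a / algebraMap (𝓞 F) F b - 1 =
            algebraMap (𝓞 F) F (a - b) / algebraMap (𝓞 F) F b := by
          rw [map_sub, sub_div, div_self hb0]
        rw [h5, map_div₀, (HeightOneSpectrum.valuation_eq_one_iff_notMem v).2 (hab v (hx v hv)).2,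
          div_one] at h4
        exact (HeightOneSpectrum.valuation_lt_one_iff_mem v _).1 h4
      have h6 : ua = ub := by
        apply Units.ext
        rw [hua, hub, Ideal.Quotient.eq, Ideal.mem_span_singleton]
        exact h3
      rw [h1, h6, sub_self]
  -- the existence theorem
  have hc1 : Ideal.absNorm (Ideal.span {c}) ≠ 0 := by
    rw [Ne, Ideal.absNorm_eq_zero_iff, Ideal.span_singleton_eq_bot]
    exact hc0
  have hcN : ∀ v : HeightOneSpectrum (𝓞 F), c ∈ v.asIdeal →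
      ((Ideal.absNorm (Ideal.span {c}) : ℕ) : 𝓞 F) ∈ v.asIdeal := by
    intro v hv
    have h1 : ((Ideal.absNorm (Ideal.span {c}) : ℕ) : 𝓞 F) ∈ Ideal.span {c} := Ideal.absNorm_mem _
    exact (Ideal.span_singleton_le_iff_mem _).2 hv h1
  obtain ⟨M, _, _, _, _, ψM, N', hN', hdvd, hRam, hart⟩ := all_EXI F (Ideal.absNorm (Ideal.span {c})) X
    hc1 (fun x hx => by
      have h1 : ∀ v : HeightOneSpectrum (𝓞 F), c ∈ v.asIdeal →
          v.valuation F ((x : F) - 1) < 1 := fun v hv =>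
        lt_of_le_of_lt (hx.1 v (hcN v hv)) (Pool.Agent.Q38.EX.val_nat_lt_one (hcN v hv))
      refine (hX2 x fun v hv => ?_).2 h1
      exact val_eq_one (hcN v hv) (hx.1 v (hcN v hv)))
  have hcN' : ∀ v : HeightOneSpectrum (𝓞 F), c ∈ v.asIdeal → (N' : 𝓞 F) ∈ v.asIdeal :=
    fun v hv => mem_of_dvd hdvd (hcN v hv)
  -- `ψM` is unramified outside `c`
  have hiner : ∀ (w : HeightOneSpectrum (𝓞 M)) (g : M ≃ₐ[F] M), c ∉ (w.under (𝓞 F)).asIdeal →
      (∀ x : 𝓞 M, w.valuation M (g (x : M) - (x : M)) < 1) → ψM g = 1 := by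
    intro w g hw hg
    refine Pool.Agent.H40.EX.sD F M ψM ℓ n N' (finite_c hc0).toFinset hℓ hN' hRam ?_ ?_ ?_ w g ?_ hg
    · intro v hv
      rw [Set.Finite.mem_toFinset] at hv
      exact hcℓ v hv
    · intro x hx hx1
      rw [hart _ (Pool.Agent.Q111.EX.prin_mem_of_Un hx)]
      refine (hX2 x fun v hv => hx v (hcN' v hv)).2 fun v hv => hx1 v ?_
      rw [Set.Finite.mem_toFinset]
      exact hv
    · intro x hx hx1
      rw [hart _ (Pool.Agent.Q111.EX.prin_mem_of_Un hx)]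
      exact (hX2 x fun v hv => hx v (hcN' v hv)).1
    · rw [Set.Finite.mem_toFinset]
      exact hw
  -- the fixed field
  let H : Subgroup (M ≃ₐ[F] M) := ψM.ker
  let E : IntermediateField F M := IntermediateField.fixedField H
  have hfix : E.fixingSubgroup = H := IntermediateField.fixingSubgroup_fixedField H
  have hGal : IsGalois F E := IsGalois.of_fixedField_normal_subgroup H
  let res : (M ≃ₐ[F] M) →* (E ≃ₐ[F] E) := AlgEquiv.restrictNormalHom E
  have hres : Function.Surjective res := AlgEquiv.restrictNormalHom_surjective M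
  have hker : res.ker = ψM.ker := by
    change res.ker = H
    rw [← hfix]
    exact IntermediateField.restrictNormalHom_ker E
  have hle : res.ker ≤ ψM.ker := hker.le
  let ψ' : (E ≃ₐ[F] E) →* ℂˣ := (MonoidHom.liftOfSurjective res hres) ⟨ψM, hle⟩
  have hψ' : ∀ g, ψ' (res g) = ψM g := fun g =>
    MonoidHom.liftOfRightInverse_comp_apply res _ _ ⟨ψM, hle⟩ g
  have hinj : Function.Injective ψ' := by
    rw [injective_iff_map_eq_one]
    intro g hg
    obtain ⟨g, rfl⟩ := hres g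
    rw [hψ'] at hg
    have h1 : g ∈ res.ker := hker ▸ hg
    exact h1
  -- values
  have hvals : ∀ g : M ≃ₐ[F] M, ψM g ^ ℓ ^ n = 1 := by
    intro g
    obtain ⟨v, hv, hvU, hvF⟩ := Pool.Agent.Q14.AR.cheb F M g _ (finite_dvd (F := F) hN')
    have h1 : art ψM (Finsupp.single v 1) = X (Finsupp.single v 1) := by
      refine hart _ fun w hw => ?_
      rw [Finsupp.single_apply, if_neg]
      rintro rfl
      exact hv hw
    rw [art_single, one_smul, hX1] at h1
    rw [← chi_frob hvU (frob_spec v) hvF ψM, Additive.ofMul.injective h1, ht1]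
  obtain ⟨v0, -, -, -⟩ := Pool.Agent.Q14.AR.cheb F M 1 _ (finite_c hc0)
  have hN'' : N' * Ideal.absNorm v0.asIdeal ≠ 0 :=
    mul_ne_zero hN' (by rw [Ne, Ideal.absNorm_eq_zero_iff]; exact v0.ne_bot)
  have hcN'' : ∀ v : HeightOneSpectrum (𝓞 F), (N' : 𝓞 F) ∈ v.asIdeal →
      ((N' * Ideal.absNorm v0.asIdeal : ℕ) : 𝓞 F) ∈ v.asIdeal := fun v hv =>
    mem_of_dvd (dvd_mul_right _ _) hv
  have hv00 : ((N' * Ideal.absNorm v0.asIdeal : ℕ) : 𝓞 F) ∈ v0.asIdeal :=
    mem_of_dvd (dvd_mul_left _ _) (Ideal.absNorm_mem v0.asIdeal)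
  have hrep : ∀ x : (𝓞 F ⧸ Ideal.span {c})ˣ, ∃ (a : 𝓞 F) (ha : a ≠ 0),
      (x : 𝓞 F ⧸ Ideal.span {c}) = Ideal.Quotient.mk _ a ∧ art ψ' (prin (el ha)) =
        Additive.ofMul (χ x) := by
    intro x
    obtain ⟨a0, ha0⟩ := Ideal.Quotient.mk_surjective (x : 𝓞 F ⧸ Ideal.span {c})
    obtain ⟨a, ha⟩ := exists_near (F := F) hN'' (fun v => if c ∈ v.asIdeal then a0 else 1)
    have h1 : (x : 𝓞 F ⧸ Ideal.span {c}) = Ideal.Quotient.mk _ a := by
      rw [← ha0, eq_comm, Ideal.Quotient.eq, Ideal.mem_span_singleton]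
      refine hcd _ fun v hv => ?_
      have h2 := (ha v (hcN'' v (hcN' v hv))).1
      rwa [if_pos hv] at h2
    have h3 : ∀ v : HeightOneSpectrum (𝓞 F),
        ((N' * Ideal.absNorm v0.asIdeal : ℕ) : 𝓞 F) ∈ v.asIdeal → a ∉ v.asIdeal := by
      intro v hv h4
      by_cases hcv : c ∈ v.asIdeal
      · exact not_mem_of_unit (a := a) (h1 ▸ x.isUnit) hcv h4
      · have h2 := (ha v hv).1
        rw [if_neg hcv] at h2
        have h3 : (1 : 𝓞 F) ∈ v.asIdeal := by
          have := v.asIdeal.sub_mem h4 h2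
          rwa [sub_sub_cancel] at this
        exact v.isPrime.ne_top ((Ideal.eq_top_iff_one _).2 h3)
    by_cases ha0 : a = 0
    · exact absurd (ha0 ▸ v0.asIdeal.zero_mem) (h3 v0 hv00)
    · refine ⟨a, ha0, h1, ?_⟩
      have h5 : prin (el ha0) ∈ Pr F N' := Pool.Agent.Q111.EX.prin_mem_of_Un fun v hv => by
        rw [el_coe]
        exact (HeightOneSpectrum.valuation_eq_one_iff_notMem v).2 (h3 v (hcN'' v hv))
      rw [Pool.Agent.Q111.EX.art_quot ψM ψ' hψ' N' hRam _ h5, hart _ h5, hXel a ha0 x h1]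
  have hfinE : Finite (E ≃ₐ[F] E) := inferInstance
  have hcyc : IsCyclic (E ≃ₐ[F] E) := by
    refine isCyclic_of_injective_ringHom ((Units.coeHom ℂ).comp ψ') ?_
    exact Units.val_injective.comp hinj
  have hcard : Module.finrank F E = ℓ ^ n := by
    rw [← IsGalois.card_aut_eq_finrank]
    obtain ⟨g, hg⟩ := IsCyclic.exists_generator (α := E ≃ₐ[F] E)
    have hog : orderOf g = Nat.card (E ≃ₐ[F] E) := orderOf_eq_card_of_forall_mem_zpowers hg
    apply Nat.dvd_antisymm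
    · rw [← hog]
      apply orderOf_dvd_of_pow_eq_one
      apply hinj
      obtain ⟨g', rfl⟩ := hres g
      rw [map_pow, hψ', hvals, map_one]
    · obtain ⟨x, hx⟩ := hχo
      obtain ⟨a, ha, -, h2⟩ := hrep x
      obtain ⟨h, hh⟩ := art_mem_range ψ' (prin (el ha))
      rw [hh] at h2
      have h3 : ψ' h = χ x := Additive.ofMul.injective h2
      rw [← hx, ← h3, orderOf_injective ψ' hinj]
      exact orderOf_dvd_natCard h
  have hunr : ∀ w : HeightOneSpectrum (𝓞 E), algebraMap (𝓞 F) (𝓞 E) c ∉ w.asIdeal →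
      Algebra.IsUnramifiedAt (𝓞 F) w.asIdeal := by
    intro w hw
    refine unr_conv ?_
    refine Pool.Agent.Q111.EX.unram_of_inert (M := M) (w.under (𝓞 F)) (fun w' hw' g hg y => ?_) w rfl
    have h5 : g ∈ E.fixingSubgroup := by
      rw [hfix]
      refine hiner w' g ?_ hg
      rw [hw']
      exact hw
    rw [IntermediateField.mem_fixingSubgroup_iff] at h5
    exact h5 y.1 y.2
  obtain ⟨A, hA⟩ := exists_art hℓ hcard hc0 hcℓ hunr
  refine ⟨E, inferInstance, inferInstance, inferInstance, hGal, ψ', A, hcyc, hcard, hinj, hA, ?_⟩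
  intro x
  obtain ⟨a, ha, h1, h2⟩ := hrep x
  rw [art_el hc0 hA ψ' a ha x h1] at h2
  exact Additive.ofMul.injective h2


end Pool.Agent.H81.EX2
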