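import Mathlib

/-!
# An automorphism of `F(ζ_{2^m}, ∛2, √q)`, `F = ℚ(√-3)`

For every odd prime `q ≠ 3` and every `m` there are a Galois extension `M` of `F` and an element `g` of the Galois
group that fixes the `2 ^ m`-th roots of unity, moves a cube root of two and maps a square root of `q` to its
negative.
-/

set_option autoImplicit false
set_option linter.unusedSectionVars false
set_option linter.deprecated false

namespace Pool.Agent.H81.EX2

open NumberField Polynomial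

section
variable {M : Type} [Field M] [NumberField M] [IsGalois ℚ M]

/-- the automorphism of `M` with `ζ ↦ ζ ^ a` -/
theorem exists_pow {N : ℕ} (hN : N ≠ 0) {ζ : M} (hζ : IsPrimitiveRoot ζ N) {a : ℕ} (ha : a.Coprime N) :
    ∃ g : M ≃ₐ[ℚ] M, g ζ = ζ ^ a := by
  have h1 : IsPrimitiveRoot (ζ ^ a) N := hζ.pow_of_coprime a ha
  have h2 : minpoly ℚ (ζ ^ a) = minpoly ℚ ζ := by
    rw [← cyclotomic_eq_minpoly_rat h1 (Nat.pos_of_ne_zero hN),
      ← cyclotomic_eq_minpoly_rat hζ (Nat.pos_of_ne_zero hN)]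
  obtain ⟨g, hg⟩ := (Normal.minpoly_eq_iff_mem_orbit (F := ℚ) M).1 h2
  exact ⟨g, hg⟩

/-- two is not a cube in a quadratic field -/
theorem two_not_cube {F : Type} [Field F] [NumberField F] (hF : Module.finrank ℚ F = 2) (b : F) :
    b ^ 3 ≠ 2 := by
  intro h
  have h1 := congrArg (Algebra.norm ℚ) h
  have h2 : (2 : F) = algebraMap ℚ F 2 := (map_ofNat _ 2).symm
  rw [map_pow, h2, Algebra.norm_algebraMap, hF] at h1
  have h3 : (Algebra.norm ℚ b) ^ 3 = 4 := by rw [h1]; norm_num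
  generalize Algebra.norm ℚ b = t at h3
  have h4 : padicValRat 2 (t ^ 3) = padicValRat 2 (4 : ℚ) := by rw [h3]
  have : Fact (Nat.Prime 2) := ⟨Nat.prime_two⟩
  rw [padicValRat.pow] at h4
  have h5 : padicValRat 2 (4 : ℚ) = 2 := by
    have : (4 : ℚ) = ((2 : ℕ) : ℚ) ^ 2 := by norm_num
    rw [this, padicValRat.pow, padicValRat.self (by norm_num)]
    norm_num
  rw [h5] at h4
  push_cast at h4
  omega

/-- the Gauss sum -/
theorem exists_sqrt {q : ℕ} (hq : q.Prime) (hq2 : q ≠ 2) {i ξ : M} (hi : i ^ 2 = -1)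
    (hξ : IsPrimitiveRoot ξ q) :
    ∃ s : M, s ^ 2 = q ∧ ∀ (g : M ≃ₐ[ℚ] M) (a : ℕ), a.Coprime q → ¬ IsSquare (a : ZMod q) →
      g i = i → g ξ = ξ ^ a → g s = -s := by
  classical
  have hqf : Fact q.Prime := ⟨hq⟩
  have hne : NeZero q := ⟨hq.ne_zero⟩
  let χ0 : MulChar (ZMod q) ℤ := quadraticChar (ZMod q)
  let χ : MulChar (ZMod q) M := χ0.ringHomComp (Int.castRingHom M)
  let ψ : AddChar (ZMod q) M := AddChar.zmodChar q ((IsPrimitiveRoot.iff_def ξ q).mp hξ).left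
  have hψ : ψ.IsPrimitive := AddChar.zmodChar_primitive_of_primitive_root q hξ
  have hchar : ringChar (ZMod q) ≠ 2 := by rw [ZMod.ringChar_zmod_n]; exact hq2
  have hχ1 : χ ≠ 1 := by
    rw [Ne, MulChar.ringHomComp_eq_one_iff (RingHom.injective_int _)]
    exact quadraticChar_ne_one hchar
  have hχ2 : χ.IsQuadratic := (quadraticChar_isQuadratic (ZMod q)).comp _
  have hsq := gaussSum_sq hχ1 hχ2 hψ
  rw [ZMod.card] at hsq
  have hg : ∀ (g : M ≃ₐ[ℚ] M) (a : ℕ), a.Coprime q → ¬ IsSquare (a : ZMod q) → g ξ = ξ ^ a →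
      g (gaussSum χ ψ) = - gaussSum χ ψ := by
    intro g a ha hna hgξ
    let u : (ZMod q)ˣ := ZMod.unitOfCoprime a ha
    have hu : (u : ZMod q) = a := ZMod.coe_unitOfCoprime a ha
    have h1 : g (gaussSum χ ψ) = gaussSum χ (ψ.mulShift u) := by
      unfold gaussSum
      rw [map_sum]
      refine Finset.sum_congr rfl fun x _ => ?_
      rw [map_mul]
      congr 1
      · change g ((χ0 x : ℤ) : M) = ((χ0 x : ℤ) : M)
        exact map_intCast g _
      · rw [AddChar.mulShift_apply, AddChar.zmodChar_apply, map_pow, hgξ, hu]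
        have h2 : (a : ZMod q) * x = ((a * x.val : ℕ) : ZMod q) := by
          rw [Nat.cast_mul, ZMod.natCast_val, ZMod.cast_id', id]
        rw [h2, AddChar.zmodChar_apply', pow_mul]
    have h2 := gaussSum_mulShift χ ψ u
    have h3 : χ u = -1 := by
      change ((χ0 u : ℤ) : M) = -1
      rw [show χ0 u = -1 from ?_]
      · norm_num
      · change quadraticChar (ZMod q) (u : ZMod q) = -1
        rw [quadraticChar_neg_one_iff_not_isSquare, hu]
        exact hna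
    rw [h1, ← h2, h3]
    ring
  have hv : χ (-1) = 1 ∨ χ (-1) = -1 := by
    rcases hχ2 (-1) with h | h | h
    · exfalso
      have h1 : χ (-1) * χ (-1) = 1 := by rw [← map_mul]; norm_num
      rw [h] at h1
      norm_num at h1
    · exact Or.inl h
    · exact Or.inr h
  rcases hv with h | h
  · refine ⟨gaussSum χ ψ, by rw [hsq, h, one_mul], fun g a ha hna _ hgξ => hg g a ha hna hgξ⟩
  · refine ⟨i * gaussSum χ ψ, ?_, fun g a ha hna hgi hgξ => ?_⟩
    · rw [mul_pow, hsq, h, hi]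
      ring
    · rw [map_mul, hgi, hg g a ha hna hgξ]
      ring

/-- an automorphism that fixes a primitive `N`-th root of unity and moves a cube root of two -/
theorem exists_move {F : Type} [Field F] [NumberField F] [IsCyclotomicExtension {3} ℚ F] [Algebra F M]
    {N : ℕ} (hN : N ≠ 0) {ζ : M} (hζ : IsPrimitiveRoot ζ N) {ω : M} (hω : IsPrimitiveRoot ω 3)
    (hωζ : ∃ k : ℕ, ω = ζ ^ k) (h3 : ∃ w : F, algebraMap F M w = ω) {r : M} (hr : r ^ 3 = 2)
    (hgal : IsGalois F M) :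
    ∃ g : M ≃ₐ[ℚ] M, g ζ = ζ ∧ g ω = ω ∧ g r ≠ r := by
  obtain ⟨k, hk⟩ := hωζ
  obtain ⟨w, hw⟩ := h3
  have hr0 : r ≠ 0 := by
    rintro rfl
    norm_num at hr
  have hω0 : ω ≠ 0 := hω.ne_zero (by norm_num)
  have hω1 : ω ≠ 1 := hω.ne_one (by norm_num)
  have hF2 : Module.finrank ℚ F = 2 := by
    rw [IsCyclotomicExtension.finrank F (cyclotomic.irreducible_rat (by norm_num : 0 < 3))]
    decide
  -- `X ^ 3 - 2` is irreducible over `F`
  have hirr : Irreducible (X ^ 3 - C (2 : F)) :=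
    X_pow_sub_C_irreducible_of_prime Nat.prime_three (two_not_cube hF2)
  have hmr : ∀ x : M, x ^ 3 = 2 → minpoly F x = X ^ 3 - C (2 : F) := by
    intro x hx
    refine (minpoly.eq_of_irreducible_of_monic hirr ?_ (monic_X_pow_sub_C _ (by norm_num))).symm
    rw [map_sub, map_pow, aeval_X, aeval_C, hx, map_ofNat, sub_self]
  obtain ⟨σ, hσ⟩ := (Normal.minpoly_eq_iff_mem_orbit (F := F) M (x := ω * r) (y := r)).1 (by
    rw [hmr _ hr, hmr _ (by rw [mul_pow, hω.pow_eq_one, one_mul, hr])])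
  have hσr : σ r = ω * r := hσ
  have hσω : σ ω = ω := by rw [← hw, AlgEquiv.commutes]
  -- complex conjugation
  obtain ⟨a, hacop, ha⟩ : ∃ a : ℕ, a.Coprime N ∧ (a + 1) % N = 0 := by
    refine ⟨N - 1, ?_, ?_⟩
    · exact (Nat.coprime_self_sub_left (Nat.one_le_iff_ne_zero.2 hN)).2 (Nat.coprime_one_left N)
    · rw [Nat.sub_add_cancel (Nat.one_le_iff_ne_zero.2 hN), Nat.mod_self]
  obtain ⟨c, hc⟩ := exists_pow hN hζ hacop
  have hcζ : c ζ * ζ = 1 := by
    rw [hc, ← pow_succ]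
    exact (hζ.pow_eq_one_iff_dvd _).2 (Nat.dvd_of_mod_eq_zero ha)
  have hcω : c ω * ω = 1 := by
    rw [hk, map_pow, ← mul_pow, hcζ, one_pow]
  have hω3 : ω ^ 3 = 1 := hω.pow_eq_one
  have hcω2 : c ω = ω ^ 2 := by
    apply mul_right_cancel₀ hω0
    rw [hcω, ← pow_succ, hω3]
  let τ : M ≃ₐ[ℚ] M := σ.restrictScalars ℚ
  have hτr : τ r = ω * r := hσr
  have hτω : τ ω = ω := hσω
  by_contra hcon
  push Not at hcon
  -- commutators fix `r`
  have hcomm : τ (c r) = c (τ r) := by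
    let e : M ≃ₐ[ℚ] M := (c * τ)⁻¹ * (τ * c)
    obtain ⟨b, hb⟩ : ∃ b : ℕ, τ ζ = ζ ^ b := by
      have h1 : (τ ζ) ^ N = 1 := by rw [← map_pow, hζ.pow_eq_one, map_one]
      have : NeZero N := ⟨hN⟩
      obtain ⟨b, -, hb⟩ := hζ.eq_pow_of_pow_eq_one h1
      exact ⟨b, hb.symm⟩
    have h1 : (τ * c) ζ = (c * τ) ζ := by
      rw [AlgEquiv.mul_apply, AlgEquiv.mul_apply, hc, hb, map_pow, map_pow, hb, hc, ← pow_mul, ← pow_mul,
        mul_comm]
    have h2 : e ζ = ζ := by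
      change (c * τ)⁻¹ ((τ * c) ζ) = ζ
      rw [h1]
      exact (c * τ).symm_apply_apply ζ
    have h3 : e ω = ω := by rw [hk, map_pow, h2]
    have h4 : e r = r := hcon e h2 h3
    have h5 : (c * τ) (e r) = (τ * c) r := by
      change (c * τ) ((c * τ)⁻¹ ((τ * c) r)) = _
      exact (c * τ).apply_symm_apply _
    rw [h4] at h5
    exact h5.symm
  -- the conjugate of `r`
  have hcr : (c r) ^ 3 = 2 := by rw [← map_pow, hr, map_ofNat]
  have h1 : (c r / r) ^ 3 = 1 := by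
    rw [div_pow, hcr, hr, div_self two_ne_zero]
  obtain ⟨j, -, hj⟩ := hω.eq_pow_of_pow_eq_one h1
  have hcr2 : c r = ω ^ j * r := by rw [hj, div_mul_cancel₀ _ hr0]
  rw [hτr, map_mul, hcω2, hcr2, map_mul, map_pow, hτω, hτr] at hcomm
  apply hω1
  have h2 : ω ^ j * r ≠ 0 := mul_ne_zero (pow_ne_zero _ hω0) hr0
  have h3 : (ω ^ 2 - ω) * (ω ^ j * r) = 0 := by linear_combination -hcomm
  have h4 : ω ^ 2 - ω = 0 := (mul_eq_zero.1 h3).resolve_right h2
  have h5 : ω * (ω - 1) = 0 := by linear_combination h4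
  exact sub_eq_zero.1 ((mul_eq_zero.1 h5).resolve_left hω0)

end

/-- **The Galois element.** -/
theorem exists_gal (F : Type) [Field F] [NumberField F] [IsCyclotomicExtension {3} ℚ F] {q : ℕ}
    (hq : q.Prime) (hq2 : q ≠ 2) (hq3 : q ≠ 3) (m : ℕ) :
    ∃ (M : Type) (_ : Field M) (_ : NumberField M) (_ : Algebra F M) (_ : IsGalois F M)
      (g : M ≃ₐ[F] M) (ζ r s : M), IsPrimitiveRoot ζ (2 ^ m) ∧ g ζ = ζ ∧ r ^ 3 = 2 ∧ g r ≠ r ∧
        s ^ 2 = q ∧ g s = -s := by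
  classical
  have hqf : Fact q.Prime := ⟨hq⟩
  obtain ⟨N, hNdef⟩ : ∃ N : ℕ, N = 3 * 2 ^ (m + 2) * q := ⟨_, rfl⟩
  have hN : N ≠ 0 := by rw [hNdef]; exact mul_ne_zero (mul_ne_zero (by norm_num) (by positivity)) hq.ne_zero
  let P : ℚ[X] := cyclotomic N ℚ * (X ^ 3 - C 2)
  let M := P.SplittingField
  have hP0 : P ≠ 0 := mul_ne_zero (cyclotomic_ne_zero N ℚ) (monic_X_pow_sub_C _ (by norm_num)).ne_zero
  have hnf : NumberField M := { }
  have hspl : IsSplittingField ℚ M P := IsSplittingField.splittingField P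
  have hnorm : Normal ℚ M := Normal.of_isSplittingField P
  have hgal : IsGalois ℚ M := { }
  have hsp : (P.map (algebraMap ℚ M)).Splits := SplittingField.splits P
  have hne0 : NeZero ((N : ℕ) : M) := ⟨Nat.cast_ne_zero.2 hN⟩
  have hPm : P.map (algebraMap ℚ M) = cyclotomic N M * (X ^ 3 - C 2) := by
    change (cyclotomic N ℚ * (X ^ 3 - C 2)).map (algebraMap ℚ M) = _
    rw [Polynomial.map_mul, map_cyclotomic, Polynomial.map_sub, Polynomial.map_pow, map_X, map_C, map_ofNat]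
  rw [hPm] at hsp
  have hPm0 : cyclotomic N M * (X ^ 3 - C 2) ≠ 0 := by
    rw [← hPm]
    exact (Polynomial.map_ne_zero_iff (algebraMap ℚ M).injective).2 hP0
  obtain ⟨ζ, hζ⟩ : ∃ ζ : M, IsPrimitiveRoot ζ N := by
    have h1 : (cyclotomic N M).Splits := hsp.of_dvd hPm0 (dvd_mul_right _ _)
    obtain ⟨ζ, hζ⟩ := h1.exists_eval_eq_zero (by
      rw [Polynomial.degree_cyclotomic]
      exact_mod_cast (Nat.totient_pos.2 (Nat.pos_of_ne_zero hN)).ne')
    exact ⟨ζ, isRoot_cyclotomic_iff.1 hζ⟩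
  obtain ⟨r, hr⟩ : ∃ r : M, r ^ 3 = 2 := by
    have h1 : (X ^ 3 - C (2 : M)).Splits := hsp.of_dvd hPm0 (dvd_mul_left _ _)
    obtain ⟨r, hr⟩ := h1.exists_eval_eq_zero (by
      rw [degree_X_pow_sub_C (by norm_num)]
      norm_num)
    refine ⟨r, ?_⟩
    rw [eval_sub, eval_pow, eval_X, eval_C, sub_eq_zero] at hr
    exact hr
  -- roots of unity
  obtain ⟨ω, hωdef⟩ : ∃ ω : M, ω = ζ ^ (2 ^ (m + 2) * q) := ⟨_, rfl⟩
  have hω : IsPrimitiveRoot ω 3 := by
    rw [hωdef]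
    exact hζ.pow (Nat.pos_of_ne_zero hN) (by rw [hNdef]; ring)
  obtain ⟨z, hzdef⟩ : ∃ z : M, z = ζ ^ (3 * 4 * q) := ⟨_, rfl⟩
  have hz : IsPrimitiveRoot z (2 ^ m) := by
    rw [hzdef]
    exact hζ.pow (Nat.pos_of_ne_zero hN) (by rw [hNdef]; ring)
  obtain ⟨i, hidef⟩ : ∃ i : M, i = ζ ^ (3 * 2 ^ m * q) := ⟨_, rfl⟩
  have hi4 : IsPrimitiveRoot i 4 := by
    rw [hidef]
    exact hζ.pow (Nat.pos_of_ne_zero hN) (by rw [hNdef]; ring)
  have hi : i ^ 2 = -1 := by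
    have h1 : IsPrimitiveRoot (i ^ 2) 2 := hi4.pow (by norm_num) (by norm_num)
    exact h1.eq_neg_one_of_two_right
  obtain ⟨ξ, hξdef⟩ : ∃ ξ : M, ξ = ζ ^ (3 * 2 ^ (m + 2)) := ⟨_, rfl⟩
  have hξ : IsPrimitiveRoot ξ q := by
    rw [hξdef]
    exact hζ.pow (Nat.pos_of_ne_zero hN) (by rw [hNdef])
  obtain ⟨s, hs, hgs⟩ := exists_sqrt hq hq2 hi hξ
  -- `F` in `M`
  obtain ⟨w, hw⟩ := IsCyclotomicExtension.exists_isPrimitiveRoot ℚ F
    (Set.mem_singleton 3) (by norm_num)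
  let pb := hw.powerBasis ℚ
  have hmin : minpoly ℚ w = cyclotomic 3 ℚ := (cyclotomic_eq_minpoly_rat hw (by norm_num)).symm
  let φ : F →ₐ[ℚ] M := pb.lift ω (by
    rw [IsPrimitiveRoot.powerBasis_gen, hmin, aeval_def, ← eval_map, map_cyclotomic]
    have : NeZero ((3 : ℕ) : M) := ⟨by norm_num⟩
    exact isRoot_cyclotomic_iff.2 hω)
  have hφ : φ w = ω := by
    have h1 := pb.lift_gen ω (by
      rw [IsPrimitiveRoot.powerBasis_gen, hmin, aeval_def, ← eval_map, map_cyclotomic]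
      have : NeZero ((3 : ℕ) : M) := ⟨by norm_num⟩
      exact isRoot_cyclotomic_iff.2 hω)
    have h2 : pb.gen = w := IsPrimitiveRoot.powerBasis_gen ℚ hw
    rw [← h2]
    exact h1
  let _ : Algebra F M := φ.toRingHom.toAlgebra
  have halg : ∀ x : F, algebraMap F M x = φ x := fun _ => rfl
  have hgalF : IsGalois F M := IsGalois.tower_top_of_isGalois ℚ F M
  -- automorphisms over `F`
  have hlift : ∀ g : M ≃ₐ[ℚ] M, g ω = ω → ∃ g' : M ≃ₐ[F] M, ∀ x, g' x = g x := by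
    intro g hg
    have h1 : (g : M →ₐ[ℚ] M).comp φ = φ := by
      apply pb.algHom_ext
      rw [IsPrimitiveRoot.powerBasis_gen]
      change g (φ w) = φ w
      rw [hφ, hg]
    refine ⟨{ g with commutes' := fun x => ?_ }, fun x => rfl⟩
    exact DFunLike.congr_fun h1 x
  obtain ⟨τ, hτζ, hτω, hτr⟩ := exists_move (F := F) hN hζ hω ⟨_, hωdef⟩ ⟨w, hφ⟩ hr hgalF
  -- the first automorphism
  have hchar : ringChar (ZMod q) ≠ 2 := by rw [ZMod.ringChar_zmod_n]; exact hq2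
  obtain ⟨b, hb⟩ := FiniteField.exists_nonsquare hchar
  have hcop : (3 * 2 ^ (m + 2)).Coprime q := by
    refine Nat.Coprime.mul_left ?_ (Nat.Coprime.pow_left _ ?_)
    · exact (Nat.coprime_primes Nat.prime_three hq).2 (Ne.symm hq3)
    · exact (Nat.coprime_primes Nat.prime_two hq).2 (Ne.symm hq2)
  obtain ⟨a, ha1, ha2⟩ := Nat.chineseRemainder hcop 1 b.val
  have hab : (a : ZMod q) = b := by
    have h1 := (ZMod.natCast_eq_natCast_iff _ _ _).2 ha2
    rw [h1, ZMod.natCast_val, ZMod.cast_id', id]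
  have hb0 : b ≠ 0 := by
    rintro rfl
    exact hb ⟨0, by ring⟩
  have haq : a.Coprime q := by
    rw [Nat.coprime_comm, Nat.Prime.coprime_iff_not_dvd hq]
    intro h
    exact hb0 (hab ▸ (ZMod.natCast_eq_zero_iff a q).2 h)
  have hacop : a.Coprime N := by
    rw [hNdef]
    refine Nat.Coprime.mul_right ?_ haq
    have h1 := ha1.gcd_eq
    rw [Nat.gcd_one_left] at h1
    exact h1
  obtain ⟨g0, hg0⟩ := exists_pow hN hζ hacop
  have hmod : ∀ (x : M) (k : ℕ), k ∣ 3 * 2 ^ (m + 2) → x ^ k = 1 → x ^ a = x := by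
    intro x k hk hx
    have h1 : a ≡ 1 [MOD k] := ha1.of_dvd hk
    rw [pow_eq_pow_mod a hx, h1, ← pow_eq_pow_mod 1 hx, pow_one]
  have hg0ω : g0 ω = ω := by
    rw [hωdef, map_pow, hg0, pow_right_comm, ← hωdef]
    exact hmod ω 3 (dvd_mul_right _ _) hω.pow_eq_one
  have hg0z : g0 z = z := by
    rw [hzdef, map_pow, hg0, pow_right_comm, ← hzdef]
    refine hmod z (2 ^ m) ?_ hz.pow_eq_one
    exact Dvd.dvd.mul_left (pow_dvd_pow 2 (by omega)) _
  have hg0i : g0 i = i := by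
    rw [hidef, map_pow, hg0, pow_right_comm, ← hidef]
    refine hmod i 4 ?_ hi4.pow_eq_one
    refine Dvd.dvd.mul_left ?_ _
    have : (4 : ℕ) = 2 ^ 2 := by norm_num
    rw [this]
    exact pow_dvd_pow 2 (by omega)
  have hg0ξ : g0 ξ = ξ ^ a := by
    rw [hξdef, map_pow, hg0, pow_right_comm]
  obtain ⟨g1, h1ω, h1z, h1i, h1ξ, h1r⟩ : ∃ g1 : M ≃ₐ[ℚ] M, g1 ω = ω ∧ g1 z = z ∧ g1 i = i ∧
      g1 ξ = ξ ^ a ∧ g1 r ≠ r := by
    by_cases h : g0 r = r
    · refine ⟨g0 * τ, ?_, ?_, ?_, ?_, ?_⟩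
      · rw [AlgEquiv.mul_apply, hτω, hg0ω]
      · rw [AlgEquiv.mul_apply, hzdef, map_pow τ, hτζ, ← hzdef, hg0z]
      · rw [AlgEquiv.mul_apply, hidef, map_pow τ, hτζ, ← hidef, hg0i]
      · rw [AlgEquiv.mul_apply, hξdef, map_pow τ, hτζ, ← hξdef, hg0ξ]
      · rw [AlgEquiv.mul_apply]
        intro h2
        apply hτr
        apply g0.injective
        rw [h2, h]
    · exact ⟨g0, hg0ω, hg0z, hg0i, hg0ξ, h⟩
  have h1s : g1 s = -s := hgs g1 a haq (by rw [hab]; exact hb) h1i h1ξ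
  obtain ⟨g, hg⟩ := hlift g1 h1ω
  exact ⟨M, inferInstance, hnf, inferInstance, hgalF, g, z, r, s, hz, by rw [hg, h1z], hr,
    by rw [hg]; exact h1r, hs, by rw [hg, h1s]⟩

end Pool.Agent.H81.EX2
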