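import Pool.Agent.H81.EX2.Exi
import Pool.Agent.H62.EX.Tot

/-!
# Total ramification, for every prime number `ℓ` (a copy of `Pool.Agent.H62.EX.tot_ram`)
-/

set_option autoImplicit false
set_option linter.unusedSectionVars false
set_option linter.deprecated false

namespace Pool.Agent.H81.EX2

open NumberField IsDedekindDomain Pool.Agent.Q92.AR Pool.Agent.Q20.EX Pool.Agent.Q125.AR Pool.Agent.H62.Cft
open Pool.Agent.Y696 (Art)
open Pool.Agent.H62.EX
open scoped Pointwise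

section
variable {F K : Type} [Field F] [NumberField F] [Field K] [NumberField K] [Algebra F K]

/-- **Total ramification.**  If there is a `y ≡ 1` modulo the primes of `S` except `p` whose Artin automorphism
generates the group, then `p` is totally ramified. -/
theorem tot_ram {ℓ : ℕ} (hℓ : ℓ.Prime) [IsGalois F K] [IsEmpty (F →+* ℝ)] [IsPrincipalIdealRing (𝓞 F)] {n : ℕ}
    (hn0 : n ≠ 0) (hn : Module.finrank F K = ℓ ^ n) {c : 𝓞 F} (hc : c ≠ 0)
    {A : (𝓞 F ⧸ Ideal.span {c})ˣ →* Gal(K/F)} (hA : Art c A) (ψ : Gal(K/F) →* ℂˣ)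
    {P : HeightOneSpectrum (𝓞 F)} (y : 𝓞 F) (u : (𝓞 F ⧸ Ideal.span {c})ˣ)
    (hu : (u : 𝓞 F ⧸ Ideal.span {c}) = Ideal.Quotient.mk _ y)
    (hy : ∀ v : HeightOneSpectrum (𝓞 F), c ∈ v.asIdeal → v ≠ P → y - 1 ∈ v.asIdeal)
    (hcd : ∀ x : 𝓞 F, (∀ v : HeightOneSpectrum (𝓞 F), c ∈ v.asIdeal → x ∈ v.asIdeal) → c ∣ x)
    (hord : ∀ m : ℕ, ψ (A u) ^ m = 1 → ℓ ^ n ∣ m)
    (v : HeightOneSpectrum (𝓞 K)) (hv : v.under (𝓞 F) = P) (g : Gal(K/F)) (x : 𝓞 K) :
    g • x - x ∈ v.asIdeal := by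
  classical
  have hcomm := comm_of_art hA
  let I : Subgroup Gal(K/F) := Ideal.inertia Gal(K/F) v.asIdeal
  have hmem : ∀ g : Gal(K/F), g ∈ I ↔ ∀ x : 𝓞 K, g • x - x ∈ v.asIdeal := fun g =>
    AddSubgroup.mem_inertia
  by_contra hcon
  have hI : I ≠ ⊤ := by
    intro h
    apply hcon
    exact (hmem g).1 (h ▸ Subgroup.mem_top g) x
  have hcard : Nat.card Gal(K/F) = ℓ ^ n := by rw [IsGalois.card_aut_eq_finrank, hn]
  obtain ⟨m, rfl⟩ := Nat.exists_eq_succ_of_ne_zero hn0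
  have hexp : ∀ g ∈ I, g ^ ℓ ^ m = 1 := by
    intro g hg
    have h1 : Nat.card I ∣ ℓ ^ (m + 1) := hcard ▸ Subgroup.card_subgroup_dvd_card I
    obtain ⟨j, hj, hj2⟩ := (Nat.dvd_prime_pow hℓ).1 h1
    have h2 : j ≠ m + 1 := by
      rintro rfl
      exact hI (Subgroup.eq_top_of_card_eq I (by rw [hj2, hcard]))
    have h3 : Nat.card I ∣ ℓ ^ m := by
      rw [hj2]
      exact pow_dvd_pow ℓ (by omega)
    have h4 : (⟨g, hg⟩ : I) ^ ℓ ^ m = 1 := by
      obtain ⟨k, hk⟩ := h3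
      rw [hk, pow_mul, pow_card_eq_one', one_pow]
    exact congrArg Subtype.val h4
  let φ : Gal(K/F) →* ℂˣ := (powMonoidHom (ℓ ^ m)).comp ψ
  have hφ : ∀ g, φ g = ψ g ^ ℓ ^ m := fun _ => rfl
  obtain ⟨N, hN, hR, -, hT⟩ := Pool.Agent.Q111.EX.trv2 Pool.Agent.Q38.EX.nrm Pool.Agent.Q285.EX.triv
    F K φ
  -- an integer with the residue of `y` near `1` at the other primes
  let N1 : ℕ := N * Ideal.absNorm (Ideal.span {c})
  have hc1 : Ideal.absNorm (Ideal.span {c}) ≠ 0 := by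
    rw [Ne, Ideal.absNorm_eq_zero_iff, Ideal.span_singleton_eq_bot]
    exact hc
  have hN1 : N1 ≠ 0 := mul_ne_zero hN hc1
  have hcN : ∀ v : HeightOneSpectrum (𝓞 F), c ∈ v.asIdeal → (N1 : 𝓞 F) ∈ v.asIdeal := by
    intro v hv
    have h1 : ((Ideal.absNorm (Ideal.span {c}) : ℕ) : 𝓞 F) ∈ Ideal.span {c} := Ideal.absNorm_mem _
    have h2 : Ideal.span {c} ≤ v.asIdeal := (Ideal.span_singleton_le_iff_mem _).2 hv
    have h3 : (N1 : 𝓞 F) = (N : 𝓞 F) * ((Ideal.absNorm (Ideal.span {c}) : ℕ) : 𝓞 F) := Nat.cast_mul _ _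
    rw [h3]
    exact v.asIdeal.mul_mem_left _ (h2 h1)
  obtain ⟨z, hz⟩ := exists_near (F := F) hN1 (fun v => if v = P then y else 1)
  have hcP : ∀ v : HeightOneSpectrum (𝓞 F), c ∈ v.asIdeal → z - y ∈ v.asIdeal := by
    intro v hv
    have h1 := (hz v (hcN v hv)).1
    by_cases hvP : v = P
    · rwa [if_pos hvP] at h1
    · rw [if_neg hvP] at h1
      have h2 := v.asIdeal.sub_mem h1 (hy v hv hvP)
      rwa [sub_sub_sub_cancel_right] at h2
  have hzu : (u : 𝓞 F ⧸ Ideal.span {c}) = Ideal.Quotient.mk _ z := by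
    rw [hu, eq_comm, Ideal.Quotient.eq, Ideal.mem_span_singleton]
    exact hcd _ hcP
  -- `P` divides `c`
  have hPc : c ∈ P.asIdeal := by
    by_contra h
    have h1 : algebraMap (𝓞 F) (𝓞 K) c ∉ v.asIdeal := by
      intro h2
      apply h
      rw [← hv]
      exact h2
    have h2 : ∀ v : HeightOneSpectrum (𝓞 F), c ∈ v.asIdeal → y - 1 ∈ v.asIdeal := fun v hv =>
      hy v hv fun h3 => h (h3 ▸ hv)
    have h3 : u = 1 := by
      apply Units.ext
      rw [hu, Units.val_one, ← map_one (Ideal.Quotient.mk _), Ideal.Quotient.eq,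
        Ideal.mem_span_singleton]
      exact hcd _ h2
    have h4 := hord 1 (by rw [h3, map_one, map_one, one_pow])
    have h5 := Nat.le_of_dvd one_pos h4
    have h6 : ℓ ^ (m + 1) > 1 := Nat.one_lt_pow (by omega) hℓ.one_lt
    exact absurd h5 (not_le.2 h6)
  have hz0 : z ≠ 0 := by
    intro h0
    have h1 := not_mem_of_unit (a := z) (hzu ▸ u.isUnit) hPc
    rw [h0] at h1
    exact h1 P.asIdeal.zero_mem
  -- `z` is a unit at `N1`
  have hzN : ∀ v : HeightOneSpectrum (𝓞 F), (N1 : 𝓞 F) ∈ v.asIdeal → z ∉ v.asIdeal := by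
    intro v hv
    by_cases hvP : v = P
    · rw [hvP]
      exact not_mem_of_unit (a := z) (hzu ▸ u.isUnit) hPc
    · intro h1
      have h2 := (hz v hv).1
      rw [if_neg hvP] at h2
      have h3 : (1 : 𝓞 F) ∈ v.asIdeal := by
        have := v.asIdeal.sub_mem h1 h2
        rwa [sub_sub_cancel] at this
      exact v.isPrime.ne_top ((Ideal.eq_top_iff_one _).2 h3)
  have hPram : P ∉ RamSet φ := by
    rintro ⟨w, hw, g, hg, hg2⟩
    apply hg2
    have h1 := inertia_congr hcomm (v := w) (w := v) (by rw [hv, hw]) (inert_iff.1 hg)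
    have h2 := hexp g ((hmem g).2 h1)
    rw [hφ, ← map_pow, h2, map_one]
  have hkill : art φ (prin (el hz0)) = 0 := by
    refine hT _ ?_ ?_ ?_
    · intro v hv
      rw [el_coe]
      exact (HeightOneSpectrum.valuation_eq_one_iff_notMem v).2
        (hzN v (mem_of_dvd (dvd_mul_right _ _) hv))
    · intro f
      exact isEmptyElim f
    · intro v hv hvN
      rw [compl_compl] at hv
      have hvP : v ≠ P := fun h => hPram (h ▸ hv)
      have h2 := (hz v (mem_of_dvd (dvd_mul_right _ _) hvN)).2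
      rw [if_neg hvP, map_sub, map_one] at h2
      rw [el_coe]
      exact h2.trans (val_nat_le (dvd_mul_right _ _) v)
  rw [art_el hc hA φ z hz0 u hzu, ofMul_eq_zero, hφ] at hkill
  have h5 := Nat.le_of_dvd (pow_pos hℓ.pos _) (hord _ hkill)
  have h6 : ℓ ^ m < ℓ ^ (m + 1) := Nat.pow_lt_pow_right hℓ.one_lt (by omega)
  exact absurd h5 (not_le.2 h6)

end

end Pool.Agent.H81.EX2
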