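import Pool.Agent.H81.EX2.Tot
import Pool.Agent.H81.EX2.Prm
import Pool.Agent.H62.EX.A2

/-!
# The existence of the towers of `2`-power degree

For `F = ℚ(√-3)`, every odd prime number `q ≡ 2 mod 3` and all `n`, `B` there is a cyclic extension `K/F` of degree
`2 ^ n` in which exactly one prime `v` of `F` ramifies, totally, with `N v > B`, such that `2` is not a cube modulo
`v`, and such that `q` generates a prime ideal of the ring of integers of `K`.
-/

set_option autoImplicit false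
set_option linter.unusedSectionVars false
set_option linter.deprecated false

namespace Pool.Agent.H81.EX2

open NumberField IsDedekindDomain Pool.Agent.Q92.AR Pool.Agent.Q20.EX Pool.Agent.Q125.AR Pool.Agent.H62.Cft
open Pool.Agent.Y696 (Art)
open Pool.Agent.H62.EX

/-- a character of a cyclic group of order divisible by `2 ^ (n + 1)`: of order `2 ^ n` at the elements
that are not squares, trivial at the elements of order dividing six -/
theorem exists_chr2 {G : Type*} [CommGroup G] [Finite G] [IsCyclic G] {n : ℕ}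
    (hG : 2 ^ (n + 1) ∣ Nat.card G) : ∃ χ : G →* ℂˣ, (∀ x, χ x ^ 2 ^ n = 1) ∧
      (∀ x : G, (¬ ∃ y, y ^ 2 = x) → ∀ m : ℕ, χ x ^ m = 1 → 2 ^ n ∣ m) ∧
      (∀ x : G, x ^ 6 = 1 → χ x = 1) := by
  obtain ⟨g, hg⟩ := IsCyclic.exists_generator (α := G)
  have hog : orderOf g = Nat.card G := orderOf_eq_card_of_forall_mem_zpowers hg
  obtain ⟨ζ, hζ⟩ : ∃ ζ : ℂˣ, IsPrimitiveRoot ζ (2 ^ n) := by
    have h := Complex.isPrimitiveRoot_exp (2 ^ n) (by positivity)
    exact ⟨(h.isUnit (by positivity)).unit, h.isUnit_unit (by positivity)⟩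
  have hoz : orderOf ζ = 2 ^ n := hζ.eq_orderOf.symm
  have hdvd : orderOf ζ ∣ orderOf g := by
    rw [hoz, hog]
    exact (pow_dvd_pow 2 (Nat.le_succ n)).trans hG
  let χ : G →* ℂˣ := monoidHomOfForallMemZpowers hg hdvd
  have hχg : χ g = ζ := monoidHomOfForallMemZpowers_apply_gen hg hdvd
  have hχ : ∀ k : ℤ, χ (g ^ k) = ζ ^ k := fun k => by rw [map_zpow, hχg]
  refine ⟨χ, ?_, ?_, ?_⟩
  · intro x
    obtain ⟨k, rfl⟩ := Subgroup.mem_zpowers_iff.1 (hg x)
    rw [hχ, ← zpow_natCast, zpow_comm, zpow_natCast, hζ.pow_eq_one, one_zpow]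
  · intro x hx m hm
    obtain ⟨k, rfl⟩ := Subgroup.mem_zpowers_iff.1 (hg x)
    rw [hχ, ← zpow_natCast, ← zpow_mul] at hm
    have h1 : ((2 ^ n : ℕ) : ℤ) ∣ k * m := by
      rw [hζ.zpow_eq_one_iff_dvd] at hm
      exact hm
    have h3 : ¬ (2 : ℤ) ∣ k := by
      rintro ⟨j, rfl⟩
      exact hx ⟨g ^ j, by rw [← zpow_natCast, ← zpow_mul]; congr 1; push_cast; ring⟩
    have hc : IsCoprime ((2 ^ n : ℕ) : ℤ) k := by
      push_cast
      refine IsCoprime.pow_left ?_
      rw [Int.isCoprime_iff_gcd_eq_one]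
      have h4 : Nat.Coprime 2 k.natAbs := (Nat.Prime.coprime_iff_not_dvd Nat.prime_two).2
        fun h => h3 (by rw [← Int.dvd_natAbs]; exact_mod_cast h)
      exact h4
    exact_mod_cast hc.dvd_of_dvd_mul_left h1
  · intro x hx
    obtain ⟨k, rfl⟩ := Subgroup.mem_zpowers_iff.1 (hg x)
    rw [hχ]
    rw [hζ.zpow_eq_one_iff_dvd]
    rw [← zpow_natCast, ← zpow_mul] at hx
    have h1 : ((Nat.card G : ℕ) : ℤ) ∣ k * 6 := by
      rw [← hog]
      have := orderOf_dvd_iff_zpow_eq_one.2 hx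
      exact_mod_cast this
    have h2 : (2 ^ (n + 1) : ℤ) ∣ k * 6 := by
      have : ((2 ^ (n + 1) : ℕ) : ℤ) ∣ ((Nat.card G : ℕ) : ℤ) := by exact_mod_cast hG
      push_cast at this
      exact this.trans h1
    have h3 : (2 ^ n : ℤ) ∣ k * 3 := by
      have : (2 ^ n * 2 : ℤ) ∣ (k * 3) * 2 := by
        rw [← pow_succ]
        have e : k * 3 * 2 = k * 6 := by ring
        rw [e]
        exact h2
      exact Int.dvd_of_mul_dvd_mul_right (by norm_num) this
    have hc : IsCoprime (2 ^ n : ℤ) 3 := IsCoprime.pow_left (by norm_num)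
    push_cast
    exact hc.dvd_of_dvd_mul_right h3

/-- **The existence of the towers.** -/
theorem exists_tower (F : Type) [Field F] [NumberField F] [IsCyclotomicExtension {3} ℚ F] {q : ℕ}
    (hq : q.Prime) (hq2 : q ≠ 2) (hq3 : 3 ∣ q + 1) {n : ℕ} (hn0 : n ≠ 0) (B : ℕ) :
    ∃ (K : Type) (_ : Field K) (_ : NumberField K) (_ : Algebra F K) (_ : IsGalois F K)
      (v : HeightOneSpectrum (𝓞 F)), IsCyclic Gal(K/F) ∧ Module.finrank F K = 2 ^ n ∧
      B < Ideal.absNorm v.asIdeal ∧ (∀ y : 𝓞 F, y ^ 3 - 2 ∉ v.asIdeal) ∧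
      (∀ w : HeightOneSpectrum (𝓞 K), w.asIdeal.under (𝓞 F) ≠ v.asIdeal →
        Algebra.IsUnramifiedAt (𝓞 F) w.asIdeal) ∧
      (∀ w : HeightOneSpectrum (𝓞 K), w.asIdeal.under (𝓞 F) = v.asIdeal →
        ∀ (g : Gal(K/F)) (x : 𝓞 K), g • x - x ∈ w.asIdeal) ∧
      (Ideal.span {((q : ℕ) : 𝓞 K)}).IsPrime := by
  classical
  have hreal := no_real F
  have hpid := IsCyclotomicExtension.Rat.three_pid F
  have hq3' : q ≠ 3 := by
    rintro rfl
    norm_num at hq3
  obtain ⟨v, hvB, hv2, hvc, hvs, hv6⟩ := exists_prime F hq hq2 hq3' (n + 1) B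
  obtain ⟨c, hc, hvc'⟩ := exists_gen v
  have hc0 : c ≠ 0 := hc.ne_zero
  have hcv : c ∈ v.asIdeal := by
    rw [hvc']
    exact Ideal.mem_span_singleton_self c
  have hcw : ∀ w : HeightOneSpectrum (𝓞 F), c ∈ w.asIdeal → w = v := by
    intro w hw
    apply HeightOneSpectrum.ext
    rw [span_of_prime hc hw, hvc']
  have hc2 : ∀ w : HeightOneSpectrum (𝓞 F), c ∈ w.asIdeal → ((2 : ℕ) : 𝓞 F) ∉ w.asIdeal := by
    intro w hw h
    rw [hcw w hw] at h
    apply hv6
    exact mem_of_dvd (Dvd.intro (3 * q) (by ring)) h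
  have hcd : ∀ x : 𝓞 F, (∀ w : HeightOneSpectrum (𝓞 F), c ∈ w.asIdeal → x ∈ w.asIdeal) → c ∣ x := by
    intro x hx
    have h1 := hx v hcv
    rw [hvc'] at h1
    exact Ideal.mem_span_singleton.1 h1
  -- the residue field
  have hmax : (Ideal.span {c}).IsMaximal := by
    rw [← hvc']
    exact v.isMaximal
  let _ : Field (𝓞 F ⧸ Ideal.span {c}) := Ideal.Quotient.field _
  have hfinR : Finite (𝓞 F ⧸ Ideal.span {c}) := by
    rw [← hvc']
    exact Ideal.finiteQuotientOfFreeOfNeBot _ v.ne_bot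
  have hcardR : Nat.card (𝓞 F ⧸ Ideal.span {c})ˣ = Ideal.absNorm v.asIdeal - 1 := by
    rw [Nat.card_units, hvc', Ideal.absNorm_apply]
    rfl
  obtain ⟨χ, hχn, hχ2, hχ6⟩ := exists_chr2 (G := (𝓞 F ⧸ Ideal.span {c})ˣ) (n := n) (by
    rw [hcardR]
    exact hv2)
  have hχ : ∀ (e : (𝓞 F)ˣ) (u : (𝓞 F ⧸ Ideal.span {c})ˣ),
      (u : 𝓞 F ⧸ Ideal.span {c}) = Ideal.Quotient.mk _ (e : 𝓞 F) → χ u = 1 := by
    intro e u hu
    apply hχ6
    apply Units.ext
    rw [Units.val_pow_eq_pow_val, hu, ← map_pow, unit_six e.isUnit, map_one, Units.val_one]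
  have hqp : Prime ((q : ℕ) : 𝓞 F) := prime_inert hq hq3
  have hqv : ((q : ℕ) : 𝓞 F) ∉ v.asIdeal := fun h => hv6 (mem_of_dvd (Dvd.intro_left 6 rfl) h)
  obtain ⟨uq, huq⟩ := isUnit_mk (a := ((q : ℕ) : 𝓞 F)) hc0 (fun w hw => by
    rw [hcw w hw]
    exact hqv)
  have hordq : ∀ m : ℕ, χ uq ^ m = 1 → 2 ^ n ∣ m := by
    refine hχ2 uq ?_
    rintro ⟨y, hy⟩
    obtain ⟨a, ha⟩ := Ideal.Quotient.mk_surjective (y : 𝓞 F ⧸ Ideal.span {c})
    apply hvs a
    have h1 := congrArg Units.val hy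
    rw [Units.val_pow_eq_pow_val, huq, ← ha, ← map_pow, Ideal.Quotient.eq] at h1
    rw [hvc']
    exact h1
  have hoq : orderOf (χ uq) = 2 ^ n :=
    Nat.dvd_antisymm (orderOf_dvd_of_pow_eq_one (hχn uq)) (hordq _ (pow_orderOf_eq_one _))
  obtain ⟨K, _, _, _, _, ψ, A, hcyc, hfin, hinj, hA, hψA⟩ :=
    exists_field Nat.prime_two F hc0 hc2 hcd χ hχ hχn ⟨uq, hoq⟩
  have hcard : Nat.card Gal(K/F) = 2 ^ n := by rw [IsGalois.card_aut_eq_finrank, hfin]
  refine ⟨K, inferInstance, inferInstance, inferInstance, inferInstance, v, hcyc, hfin, hvB, hvc, ?_, ?_, ?_⟩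
  · intro w hw
    refine hA.unr w fun h => hw ?_
    have h1 : c ∈ (w.under (𝓞 F)).asIdeal := h
    have h2 := hcw _ h1
    exact congrArg HeightOneSpectrum.asIdeal h2
  · intro w hw g x
    refine tot_ram Nat.prime_two hn0 hfin hc0 hA ψ (P := v) _ uq huq ?_ hcd ?_ w ?_ g x
    · intro w' hw' hne
      exact absurd (hcw w' hw') hne
    · intro m hm
      rw [hψA] at hm
      exact hordq m hm
    · exact HeightOneSpectrum.ext hw
  · -- `q` is inert
    have hq0 : ((q : ℕ) : 𝓞 K) ≠ 0 := Nat.cast_ne_zero.2 hq.ne_zero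
    let vq : HeightOneSpectrum (𝓞 F) := ⟨Ideal.span {((q : ℕ) : 𝓞 F)},
      (Ideal.span_singleton_prime hqp.ne_zero).2 hqp, by
        rw [Ne, Ideal.span_singleton_eq_bot]
        exact hqp.ne_zero⟩
    obtain ⟨w, hw⟩ := exists_above (K := K) vq
    have hqw : ((q : ℕ) : 𝓞 K) ∈ w.asIdeal := by
      have h1 : ((q : ℕ) : 𝓞 F) ∈ (w.under (𝓞 F)).asIdeal := by
        rw [hw]
        exact Ideal.mem_span_singleton_self _
      have h2 : algebraMap (𝓞 F) (𝓞 K) ((q : ℕ) : 𝓞 F) ∈ w.asIdeal := h1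
      rwa [map_natCast] at h2
    have hunder : ∀ w' : HeightOneSpectrum (𝓞 K), ((q : ℕ) : 𝓞 K) ∈ w'.asIdeal →
        w'.under (𝓞 F) = vq := by
      intro w' hw'
      apply HeightOneSpectrum.ext
      refine span_of_prime hqp ?_
      have h2 : algebraMap (𝓞 F) (𝓞 K) ((q : ℕ) : 𝓞 F) ∈ w'.asIdeal := by rwa [map_natCast]
      exact h2
    have huniq : ∀ w' : HeightOneSpectrum (𝓞 K), ((q : ℕ) : 𝓞 K) ∈ w'.asIdeal → w' = w := by
      intro w' hw'
      refine one_above (q := Nat.card (𝓞 F ⧸ Ideal.span {((q : ℕ) : 𝓞 F)})) (g := A uq) ?_ ?_ ?_ ?_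
      · rw [hunder w hqw, hunder w' hw']
      · have : Finite (𝓞 F ⧸ Ideal.span {((q : ℕ) : 𝓞 F)}) :=
          Ideal.finiteQuotientOfFreeOfNeBot _ vq.ne_bot
        exact Nat.card_pos.ne'
      · refine hA.frob _ hqp uq huq w' ?_
        rwa [map_natCast]
      · have h1 : Nat.card (Subgroup.zpowers (A uq)) = Nat.card Gal(K/F) := by
          rw [Nat.card_zpowers, hcard, ← orderOf_injective ψ hinj, hψA, hoq]
        have h2 := Subgroup.eq_top_of_card_eq _ h1
        intro t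
        rw [h2]
        exact Subgroup.mem_top t
    -- `q` is not in `w²`
    have hunr : Algebra.IsUnramifiedAt (𝓞 F) w.asIdeal := by
      refine hA.unr w fun h => ?_
      have h1 : c ∈ (w.under (𝓞 F)).asIdeal := h
      have h2 := hcw _ h1
      rw [hw] at h2
      apply hqv
      rw [← h2]
      exact Ideal.mem_span_singleton_self _
    have hsq := not_le_sq hunr
    have hspan : (w.under (𝓞 F)).asIdeal.map (algebraMap (𝓞 F) (𝓞 K)) = Ideal.span {((q : ℕ) : 𝓞 K)} := by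
      rw [hw]
      change (Ideal.span {((q : ℕ) : 𝓞 F)}).map (algebraMap (𝓞 F) (𝓞 K)) = _
      rw [Ideal.map_span, Set.image_singleton, map_natCast]
    rw [hspan] at hsq
    suffices h : Ideal.span {((q : ℕ) : 𝓞 K)} = w.asIdeal by
      rw [h]
      exact w.isPrime
    -- the factorization
    have hle : Ideal.span {((q : ℕ) : 𝓞 K)} ≤ w.asIdeal := (Ideal.span_singleton_le_iff_mem _).2 hqw
    obtain ⟨J, hJ⟩ := Ideal.dvd_iff_le.2 hle
    have hJtop : J = ⊤ := by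
      by_contra hne
      obtain ⟨m, hm, hJm⟩ := Ideal.exists_le_maximal J hne
      have hqm : ((q : ℕ) : 𝓞 K) ∈ m := by
        have h1 : Ideal.span {((q : ℕ) : 𝓞 K)} ≤ m := by
          rw [hJ]
          exact Ideal.mul_le_right.trans hJm
        exact h1 (Ideal.mem_span_singleton_self _)
      have hm0 : m ≠ ⊥ := by
        rintro rfl
        exact hq0 hqm
      have h2 := huniq ⟨m, hm.isPrime, hm0⟩ hqm
      have h3 : m = w.asIdeal := congrArg HeightOneSpectrum.asIdeal h2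
      apply hsq
      rw [hJ, pow_two]
      exact Ideal.mul_mono le_rfl (h3 ▸ hJm)
    rw [hJ, hJtop, Ideal.mul_top]

end Pool.Agent.H81.EX2
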